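import Pool.Agent.Y19.TP.Stm

set_option autoImplicit false

/-! Project TP (helper19), job PER: bounded periods. -/

namespace Pool.Agent.Y888.TP

open Function Finset

/-- A nonarchimedean absolute value bounded by one. -/
structure Nm (A : Type) [CommRing A] (N : A → ℝ) : Prop where
  zero_iff : ∀ a, N a = 0 ↔ a = 0
  nonneg : ∀ a, 0 ≤ N a
  le_one : ∀ a, N a ≤ 1
  mul : ∀ a b, N (a * b) = N a * N b
  add_le : ∀ a b, N (a + b) ≤ max (N a) (N b)
  neg : ∀ a, N (-a) = N a
  one : N 1 = 1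

/-- The values of a polynomial. -/
def E {R : Type*} [CommRing R] (n : ℕ) (c : ℕ → R) (y : R) : R := ∑ m ∈ range n, c m * y ^ m

/-- The difference quotient. -/
def D {R : Type*} [CommRing R] (n : ℕ) (c : ℕ → R) (y z : R) : R :=
  ∑ m ∈ range n, c m * ∑ i ∈ range m, y ^ i * z ^ (m - 1 - i)

theorem E_sub {R : Type*} [CommRing R] (n : ℕ) (c : ℕ → R) (y z : R) :
    E n c y - E n c z = (y - z) * D n c y z := by
  unfold E D
  rw [← sum_sub_distrib, mul_sum]
  refine sum_congr rfl fun m _ => ?_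
  have h := (Commute.all y z).geom_sum₂_mul m
  rw [← mul_sub, ← h]
  ring

theorem map_E {R S : Type*} [CommRing R] [CommRing S] (φ : R →+* S) (n : ℕ) (c : ℕ → R) (y : R) :
    φ (E n c y) = E n (fun m => φ (c m)) (φ y) := by
  simp [E, map_sum]

theorem map_D {R S : Type*} [CommRing R] [CommRing S] (φ : R →+* S) (n : ℕ) (c : ℕ → R)
    (y z : R) : φ (D n c y z) = D n (fun m => φ (c m)) (φ y) (φ z) := by
  simp [D, map_sum]

theorem map_iter {R S : Type*} [CommRing R] [CommRing S] (φ : R →+* S) (n : ℕ) (c : ℕ → R)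
    (k : ℕ) (y : R) : φ ((E n c)^[k] y) = (E n (fun m => φ (c m)))^[k] (φ y) := by
  induction k generalizing y with
  | zero => rfl
  | succ k ih => rw [iterate_succ_apply, iterate_succ_apply, ih, map_E]

theorem diff_iter {R : Type*} [CommRing R] (n : ℕ) (c : ℕ → R) (y z : R) (k : ℕ) :
    (E n c)^[k] y - (E n c)^[k] z =
      (y - z) * ∏ i ∈ range k, D n c ((E n c)^[i] y) ((E n c)^[i] z) := by
  induction k with
  | zero => simp
  | succ k ih =>
    rw [prod_range_succ, ← mul_assoc, ← ih, iterate_succ_apply', iterate_succ_apply', E_sub]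

section Lip

variable {A : Type} [CommRing A] {N : A → ℝ}

theorem Nm.zero (hN : Nm A N) : N 0 = 0 := (hN.zero_iff 0).2 rfl

theorem Nm.pos (hN : Nm A N) {a : A} (ha : a ≠ 0) : 0 < N a :=
  lt_of_le_of_ne (hN.nonneg a) fun h => ha ((hN.zero_iff a).1 h.symm)

theorem Nm.sub_comm (hN : Nm A N) (a b : A) : N (a - b) = N (b - a) := by
  rw [← hN.neg (a - b), neg_sub]

theorem iter_close (hN : Nm A N) (B : Set A) (ρ : ℝ) (hρ0 : 0 ≤ ρ) (hρ : ρ ≤ 1) (g : A → A)
    (hB : ∀ y ∈ B, g y ∈ B)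
    (hg : ∀ y ∈ B, ∀ y' ∈ B, N (g y - g y' - (y - y')) ≤ ρ * N (y - y')) (x : A) (hx : x ∈ B)
    (j : ℕ) : g^[j] x ∈ B ∧ N (g^[j] x - x) ≤ N (g x - x) ∧
      N (g^[j] x - x - j * (g x - x)) ≤ ρ * N (g x - x) := by
  induction j with
  | zero => simp [hx, mul_nonneg hρ0 (hN.nonneg (g x - x)), hN.zero, hN.nonneg]
  | succ j ih =>
    obtain ⟨h1, h2, h3⟩ := ih
    rw [iterate_succ_apply']
    have h4 := hg _ h1 _ hx
    have h5 : N (g (g^[j] x) - g x - (g^[j] x - x)) ≤ ρ * N (g x - x) :=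
      h4.trans (mul_le_mul_of_nonneg_left h2 hρ0)
    have h6 : N (g (g^[j] x) - x - ((j + 1 : ℕ) : A) * (g x - x)) ≤ ρ * N (g x - x) := by
      have e : g (g^[j] x) - x - ((j + 1 : ℕ) : A) * (g x - x) =
          (g (g^[j] x) - g x - (g^[j] x - x)) + (g^[j] x - x - j * (g x - x)) := by
        push_cast; ring
      rw [e]
      exact (hN.add_le _ _).trans (max_le h5 h3)
    refine ⟨hB _ h1, ?_, h6⟩
    have e : g (g^[j] x) - x = (g (g^[j] x) - x - ((j + 1 : ℕ) : A) * (g x - x)) +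
        ((j + 1 : ℕ) : A) * (g x - x) := by ring
    rw [e]
    refine (hN.add_le _ _).trans (max_le (h6.trans ?_) ?_)
    · exact mul_le_of_le_one_left (hN.nonneg _) hρ
    · rw [hN.mul]; exact mul_le_of_le_one_left (hN.nonneg _) (hN.le_one _)

theorem iter_lip (hN : Nm A N) (B : Set A) (ρ : ℝ) (hρ : ρ ≤ 1) (hρ0 : 0 ≤ ρ) (g : A → A)
    (hB : ∀ y ∈ B, g y ∈ B)
    (hg : ∀ y ∈ B, ∀ y' ∈ B, N (g y - g y' - (y - y')) ≤ ρ * N (y - y')) (j : ℕ) :
    (∀ y ∈ B, g^[j] y ∈ B) ∧
      ∀ y ∈ B, ∀ y' ∈ B, N (g^[j] y - g^[j] y' - (y - y')) ≤ ρ * N (y - y') := by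
  induction j with
  | zero =>
    refine ⟨fun y hy => hy, fun y _ y' _ => ?_⟩
    simp only [iterate_zero, id, sub_self, hN.zero]
    exact mul_nonneg hρ0 (hN.nonneg _)
  | succ j ih =>
    obtain ⟨h1, h2⟩ := ih
    refine ⟨fun y hy => by rw [iterate_succ_apply']; exact hB _ (h1 y hy), fun y hy y' hy' => ?_⟩
    rw [iterate_succ_apply', iterate_succ_apply']
    have h3 := hg _ (h1 y hy) _ (h1 y' hy')
    have h4 : N (g^[j] y - g^[j] y') ≤ N (y - y') := by
      have e : g^[j] y - g^[j] y' = (g^[j] y - g^[j] y' - (y - y')) + (y - y') := by ring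
      rw [e]
      refine (hN.add_le _ _).trans (max_le ((h2 y hy y' hy').trans ?_) le_rfl)
      exact mul_le_of_le_one_left (hN.nonneg _) hρ
    have e : g (g^[j] y) - g (g^[j] y') - (y - y') =
        (g (g^[j] y) - g (g^[j] y') - (g^[j] y - g^[j] y')) + (g^[j] y - g^[j] y' - (y - y')) := by
      ring
    rw [e]
    refine (hN.add_le _ _).trans (max_le (h3.trans ?_) (h2 y hy y' hy'))
    exact mul_le_mul_of_nonneg_left h4 hρ0

theorem norm_coprime (hN : Nm A N) {p : ℕ} (hp : p.Prime) (hp1 : N (p : A) < 1) (k : ℕ)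
    (hk : ¬ p ∣ k) : N (k : A) = 1 := by
  have hco : IsCoprime (k : ℤ) (p : ℤ) := by
    rw [Nat.isCoprime_iff_coprime, Nat.coprime_comm]
    exact (Nat.Prime.coprime_iff_not_dvd hp).2 hk
  obtain ⟨a, b, hab⟩ := hco
  have h1 : ((a : ℤ) : A) * (k : A) + ((b : ℤ) : A) * (p : A) = 1 := by
    have := congrArg (fun t : ℤ => (t : A)) hab
    push_cast at this
    exact this
  have h2 := hN.add_le (((a : ℤ) : A) * (k : A)) (((b : ℤ) : A) * (p : A))
  rw [h1, hN.one, hN.mul, hN.mul] at h2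
  have h3 : N ((b : ℤ) : A) * N (p : A) < 1 :=
    lt_of_le_of_lt (mul_le_of_le_one_left (hN.nonneg _) (hN.le_one _)) hp1
  have h4 : 1 ≤ N ((a : ℤ) : A) * N (k : A) := by
    rcases le_max_iff.1 h2 with h | h
    · exact h
    · linarith
  have h5 : N ((a : ℤ) : A) * N (k : A) ≤ N (k : A) :=
    mul_le_of_le_one_left (hN.nonneg _) (hN.le_one _)
  exact le_antisymm (hN.le_one _) (h4.trans h5)

/-- Maps that are close to the identity have no nontrivial periodic points. -/
theorem fixed_of_periodic (hN : Nm A N) {p : ℕ} (hp : p.Prime) (hp1 : N (p : A) < 1) (B : Set A)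
    (ρ : ℝ) (hρ0 : 0 ≤ ρ) (hρ : ρ < N (p : A)) :
    ∀ k : ℕ, 0 < k → ∀ g : A → A, (∀ y ∈ B, g y ∈ B) →
      (∀ y ∈ B, ∀ y' ∈ B, N (g y - g y' - (y - y')) ≤ ρ * N (y - y')) →
      ∀ x ∈ B, g^[k] x = x → g x = x := by
  have hρ1 : ρ ≤ 1 := hρ.le.trans (hN.le_one _)
  -- the basic step
  have basic : ∀ j : ℕ, ρ < N (j : A) → ∀ g : A → A, (∀ y ∈ B, g y ∈ B) →
      (∀ y ∈ B, ∀ y' ∈ B, N (g y - g y' - (y - y')) ≤ ρ * N (y - y')) →
      ∀ x ∈ B, g^[j] x = x → g x = x := by
    intro j hj g hB hg x hx hjx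
    have h := (iter_close hN B ρ hρ0 hρ1 g hB hg x hx j).2.2
    rw [hjx, sub_self, zero_sub, hN.neg, hN.mul] at h
    by_contra hne
    have hpos : 0 < N (g x - x) := hN.pos (sub_ne_zero.2 hne)
    exact absurd (le_of_mul_le_mul_right h hpos) (not_le.2 hj)
  intro k
  induction k using Nat.strong_induction_on with
  | _ k ih =>
    intro hk g hB hg x hx hkx
    by_cases hpk : p ∣ k
    · obtain ⟨m, rfl⟩ := hpk
      have hm : 0 < m := Nat.pos_of_mul_pos_left hk
      obtain ⟨h1, h2⟩ := iter_lip hN B ρ hρ1 hρ0 g hB hg p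
      have h3 : g^[p] x = x := by
        refine ih m ?_ hm g^[p] h1 h2 x hx ?_
        · calc m = 1 * m := (one_mul m).symm
            _ < p * m := Nat.mul_lt_mul_of_pos_right hp.one_lt hm
        · rw [← iterate_mul]; exact hkx
      exact basic p hρ g hB hg x hx h3
    · have h1 : N (k : A) = 1 := norm_coprime hN hp hp1 k hpk
      exact basic k (by rw [h1]; exact lt_of_lt_of_le hρ (hN.le_one _)) g hB hg x hx hkx

/-- The ideal of the elements of absolute value at most `ε`. -/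
def Id (hN : Nm A N) (ε : ℝ) (hε : 0 ≤ ε) : Ideal A where
  carrier := {a | N a ≤ ε}
  add_mem' := fun {a b} ha hb => (hN.add_le a b).trans (max_le ha hb)
  zero_mem' := by
    show N 0 ≤ ε
    rw [hN.zero]; exact hε
  smul_mem' := fun a b hb => by
    show N (a * b) ≤ ε
    rw [hN.mul]
    exact (mul_le_of_le_one_left (hN.nonneg _) (hN.le_one _)).trans hb

theorem mk_eq (hN : Nm A N) (ε : ℝ) (hε : 0 ≤ ε) (a b : A) :
    Ideal.Quotient.mk (Id hN ε hε) a = Ideal.Quotient.mk (Id hN ε hε) b ↔ N (a - b) ≤ ε :=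
  Ideal.Quotient.eq

/-- The period of every periodic point divides a number depending only on `M`. -/
theorem period (hN : Nm A N) {p : ℕ} (hp : p.Prime) (hp1 : N (p : A) < 1) (ε : ℝ)
    (hε : ε < N (p : A)) (M : ℕ)
    (hpig : ∀ g : Fin (M + 1) → A, ∃ i j, i ≠ j ∧ N (g i - g j) ≤ ε) (n : ℕ) (c : ℕ → A) (x : A)
    (hx : x ∈ periodicPts (E n c)) :
    (E n c)^[M.factorial * M.factorial] x = x := by
  have hε0 : 0 ≤ ε := by
    obtain ⟨i, j, _, h⟩ := hpig (fun _ => 0)
    exact (hN.nonneg _).trans h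
  have hε1 : ε < 1 := hε.trans hp1
  have hpigN : ∀ s : ℕ → A, ∃ i j, i < j ∧ j ≤ M ∧ N (s i - s j) ≤ ε := by
    intro s
    obtain ⟨i, j, hij, h⟩ := hpig (fun i => s i)
    rcases lt_or_gt_of_ne hij with h' | h'
    · exact ⟨i, j, h', by omega, h⟩
    · refine ⟨j, i, h', by omega, ?_⟩
      rw [hN.sub_comm]; exact h
  obtain ⟨k, hk, hkx⟩ := hx
  have hkx' : (E n c)^[k] x = x := hkx
  set φ := Ideal.Quotient.mk (Id hN ε hε0) with hφ
  have hφeq : ∀ a b : A, φ a = φ b ↔ N (a - b) ≤ ε := fun a b => mk_eq hN ε hε0 a b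
  set c' : ℕ → A ⧸ (Id hN ε hε0) := fun m => φ (c m) with hc'
  have hmap : ∀ (j : ℕ) (y : A), φ ((E n c)^[j] y) = (E n c')^[j] (φ y) := fun j y =>
    map_iter φ n c j y
  have hmapD : ∀ (y z : A), φ (D n c y z) = D n c' (φ y) (φ z) := fun y z =>
    map_D φ n c y z
  set N1 := M.factorial with hN1def
  have hN1pos : 0 < N1 := Nat.factorial_pos M
  have hN1 : (E n c')^[N1] (φ x) = φ x := by
    obtain ⟨i, j, hij, hjM, h⟩ := hpigN (fun i => (E n c)^[i] x)
    have h1 := (hφeq _ _).2 h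
    rw [hmap, hmap] at h1
    have hXk : (E n c')^[k] (φ x) = φ x := by rw [← hmap, hkx']
    have hXki : (E n c')^[k * i] (φ x) = φ x := by
      rw [iterate_mul]; exact iterate_fixed hXk i
    have hik : i ≤ k * i := Nat.le_mul_of_pos_left i hk
    have h2 := congrArg ((E n c')^[k * i - i]) h1
    rw [← iterate_add_apply, ← iterate_add_apply] at h2
    have e1 : k * i - i + i = k * i := by omega
    have e2 : k * i - i + j = (j - i) + k * i := by omega
    rw [e1, e2, iterate_add_apply, hXki] at h2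
    have hd : (j - i) ∣ N1 := Nat.dvd_factorial (by omega) (by omega)
    obtain ⟨q, hq⟩ := hd
    rw [hq, iterate_mul]
    exact iterate_fixed h2.symm q
  let u : A := ∏ i ∈ range N1, D n c ((E n c)^[i] x) ((E n c)^[i] x)
  have hiter : ∀ j, (E n c')^[N1 * j] (φ x) = φ x := by
    intro j
    rw [iterate_mul]
    exact iterate_fixed hN1 j
  have hprod : ∀ j, ∏ i ∈ range (N1 * j), D n c' ((E n c')^[i] (φ x)) ((E n c')^[i] (φ x)) =
      φ u ^ j := by
    intro j
    induction j with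
    | zero => simp
    | succ j ih =>
      rw [Nat.mul_succ, prod_range_add, ih, pow_succ (φ u) j]
      congr 1
      change _ = φ (∏ i ∈ range N1, D n c ((E n c)^[i] x) ((E n c)^[i] x))
      rw [map_prod]
      refine prod_congr rfl fun i _ => ?_
      rw [Nat.add_comm (N1 * j) i, iterate_add_apply, hiter, hmapD, hmap]
  let B : Set A := {y | φ y = φ x}
  let g : A → A := (E n c)^[N1 * N1]
  have hgφ : ∀ y ∈ B, φ (g y) = φ x := by
    intro y hy
    have hy' : φ y = φ x := hy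
    change φ ((E n c)^[N1 * N1] y) = φ x
    rw [hmap, hy']
    exact hiter N1
  let P : A → A → A := fun y y' =>
    ∏ i ∈ range (N1 * N1), D n c ((E n c)^[i] y) ((E n c)^[i] y')
  have hdiff : ∀ y y', g y - g y' = (y - y') * P y y' := fun y y' => diff_iter n c y y' _
  have hP : ∀ y ∈ B, ∀ y' ∈ B, φ (P y y') = φ u ^ N1 := by
    intro y hy y' hy'
    have e1 : φ y = φ x := hy
    have e2 : φ y' = φ x := hy'
    change φ (∏ i ∈ range (N1 * N1), D n c ((E n c)^[i] y) ((E n c)^[i] y')) = _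
    rw [map_prod, ← hprod N1]
    refine prod_congr rfl fun i _ => ?_
    rw [hmapD, hmap, hmap, e1, e2]
  have hgk : g^[k] x = x := by
    change ((E n c)^[N1 * N1])^[k] x = x
    rw [← iterate_mul, Nat.mul_comm, iterate_mul]
    exact iterate_fixed hkx' _
  rcases eq_or_lt_of_le (hN.le_one u) with hu | hu
  · -- multiplier of absolute value one
    have hupow : ∀ i, N (u ^ i) = 1 := by
      intro i
      induction i with
      | zero => rw [pow_zero]; exact hN.one
      | succ i ih => rw [pow_succ, hN.mul, ih, hu, mul_one]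
    have hu1 : φ u ^ N1 = 1 := by
      obtain ⟨i, j, hij, hjM, h⟩ := hpigN (fun i => u ^ i)
      have e : u ^ i - u ^ j = u ^ i * (1 - u ^ (j - i)) := by
        rw [mul_sub, mul_one, ← pow_add]
        congr 2
        omega
      have h' : N (u ^ i - u ^ j) ≤ ε := h
      rw [e, hN.mul, hupow, one_mul] at h'
      have h1 : φ 1 = φ (u ^ (j - i)) := (hφeq _ _).2 h'
      rw [map_one, map_pow] at h1
      have hd : (j - i) ∣ N1 := Nat.dvd_factorial (by omega) (by omega)
      obtain ⟨q, hq⟩ := hd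
      rw [hq, pow_mul, ← h1, one_pow]
    refine fixed_of_periodic hN hp hp1 B ε hε0 hε k hk g hgφ ?_ x rfl hgk
    intro y hy y' hy'
    have e : g y - g y' - (y - y') = (P y y' - 1) * (y - y') := by rw [hdiff]; ring
    rw [e, hN.mul]
    refine mul_le_mul_of_nonneg_right ?_ (hN.nonneg _)
    rw [← hφeq, map_one]
    exact (hP y hy y' hy').trans hu1
  · -- attracting
    have hupow : ∀ i, 0 < i → N (u ^ i) < 1 := by
      intro i hi
      obtain ⟨j, rfl⟩ : ∃ j, i = j + 1 := ⟨i - 1, by omega⟩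
      rw [pow_succ, hN.mul]
      exact lt_of_le_of_lt (mul_le_of_le_one_left (hN.nonneg _) (hN.le_one _)) hu
    have hlt : ∀ y ∈ B, ∀ y' ∈ B, N (P y y') < 1 := by
      intro y hy y' hy'
      have h1 : φ (P y y') = φ (u ^ N1) := by rw [map_pow]; exact hP y hy y' hy'
      have h2 := (hφeq _ _).1 h1
      have e : P y y' = (P y y' - u ^ N1) + u ^ N1 := by ring
      rw [e]
      exact lt_of_le_of_lt (hN.add_le _ _) (max_lt (lt_of_le_of_lt h2 hε1) (hupow N1 hN1pos))
    have hBj : ∀ j, g^[j] x ∈ B := by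
      intro j
      induction j with
      | zero => rfl
      | succ j ih => rw [iterate_succ_apply']; exact hgφ _ ih
    by_contra hne
    have hne' : g x ≠ x := hne
    have hpos : 0 < N (g x - x) := hN.pos (sub_ne_zero.2 hne')
    have hstep : ∀ j, N (g^[j + 1] (g x) - g^[j + 1] x) < N (g x - x) := by
      intro j
      induction j with
      | zero =>
        rw [zero_add, iterate_one, hdiff, hN.mul]
        exact mul_lt_of_lt_one_right hpos (hlt _ (hBj 1) _ (hBj 0))
      | succ j ih =>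
        rw [iterate_succ_apply' g (j + 1) (g x), iterate_succ_apply' g (j + 1) x, hdiff, hN.mul]
        refine lt_of_le_of_lt ?_ ih
        exact mul_le_of_le_one_right (hN.nonneg _) (hN.le_one _)
    obtain ⟨m, rfl⟩ : ∃ m, k = m + 1 := ⟨k - 1, by omega⟩
    have h := hstep m
    rw [← iterate_succ_apply, iterate_succ_apply' g (m + 1) x, hgk] at h
    exact lt_irrefl _ h

end Lip

open Pool.Agent.Y19.TP in
theorem t_PER : PER := by
  intro p hp U _ _ _ hp1 A hA ε hε M hpig f hf x hxA hx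
  let N : A → ℝ := fun a => ‖(a : U)‖
  have hN : Nm A N :=
    { zero_iff := fun a => by
        show ‖(a : U)‖ = 0 ↔ a = 0
        rw [norm_eq_zero, ZeroMemClass.coe_eq_zero]
      nonneg := fun a => norm_nonneg _
      le_one := fun a => hA _ a.2
      mul := fun a b => by
        show ‖((a * b : A) : U)‖ = ‖(a : U)‖ * ‖(b : U)‖
        rw [Subring.coe_mul, norm_mul]
      add_le := fun a b => by
        show ‖((a + b : A) : U)‖ ≤ max ‖(a : U)‖ ‖(b : U)‖
        rw [Subring.coe_add]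
        exact IsUltrametricDist.norm_add_le_max _ _
      neg := fun a => by
        show ‖((-a : A) : U)‖ = ‖(a : U)‖
        rw [Subring.coe_neg, norm_neg]
      one := by
        show ‖((1 : A) : U)‖ = 1
        rw [Subring.coe_one, norm_one] }
  have hNp : N ((p : ℕ) : A) = ‖(p : U)‖ := by
    show ‖(((p : ℕ) : A) : U)‖ = ‖(p : U)‖
    rw [Subring.coe_natCast]
  let c : ℕ → A := fun m => ⟨f.coeff m, hf m⟩
  have hev : (fun z : U => f.eval z) =
      E (f.natDegree + 1) (fun m => A.subtype (c m)) := by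
    funext z
    rw [Polynomial.eval_eq_sum_range]
    rfl
  have hmap : ∀ (k : ℕ) (a : A), (((E (f.natDegree + 1) c)^[k] a : A) : U) =
      (fun z : U => f.eval z)^[k] (a : U) := by
    intro k a
    rw [hev]
    exact map_iter A.subtype (f.natDegree + 1) c k a
  have hper : (⟨x, hxA⟩ : A) ∈ periodicPts (E (f.natDegree + 1) c) := by
    obtain ⟨k, hk, hkx⟩ := hx
    refine ⟨k, hk, ?_⟩
    show (E (f.natDegree + 1) c)^[k] ⟨x, hxA⟩ = ⟨x, hxA⟩
    apply Subtype.ext
    rw [hmap]
    exact hkx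
  have h := period hN hp.out (by rw [hNp]; exact hp1) ε (by rw [hNp]; exact hε) M
    (fun g => hpig (fun i => (g i : U)) (fun i => (g i).2)) (f.natDegree + 1) c ⟨x, hxA⟩ hper
  have h2 := hmap (M.factorial * M.factorial) ⟨x, hxA⟩
  rw [h] at h2
  exact h2.symm

end Pool.Agent.Y888.TP
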